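import Pool.Agent.W_8c5d11_h22.F5

/-!
# MP_8c5d11_gt : maximal distance minimizers of a disc, length and distribution
-/

namespace Pool.Agent.Results.MP_8c5d11_gt.Disc

open MeasureTheory Metric Set Pool.Agent.W_8c5d11_h22

/-- **Theorem.** There is an absolute constant `C` such that for all `0 < r ≤ R` the least length `ℓ` of
an admissible set (compact, connected, with the closed disc of radius `R` in its closed
`r`-neighbourhood) satisfies `|2 r ℓ - π R²| ≤ C r²`, and every admissible set `S` of finite length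
satisfies, for every Borel set `D` of the plane,
`|2 r H¹(S ∩ D) - |D ∩ B_R|| ≤ |N_r(∂D) ∩ B_R| + 2 r (H¹(S) - ℓ) + C r²`. -/
theorem result : ∃ C : ℝ, 0 < C ∧ ∀ R r : ℝ, 0 < r → r ≤ R →
    |2 * r * (minLength R r).toReal - Real.pi * R ^ 2| ≤ C * r ^ 2 ∧
    ∀ S : Set (EuclideanSpace ℝ (Fin 2)), Admissible R r S → μH[1] S ≠ ⊤ →
      ∀ D : Set (EuclideanSpace ℝ (Fin 2)), MeasurableSet D →
        |2 * r * (μH[1] (S ∩ D)).toReal - (volume (D ∩ closedBall 0 R)).toReal| ≤
          (volume (cthickening r (frontier D) ∩ closedBall 0 R)).toReal +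
            2 * r * ((μH[1] S).toReal - (minLength R r).toReal) + C * r ^ 2 := by
  refine ⟨2000004, by norm_num, fun R r hr hR => ⟨?_, fun S hS hfin D hD => ?_⟩⟩
  · exact (abs_minLength hr hR).trans (mul_le_mul_of_nonneg_right (by norm_num) (by positivity))
  · exact distribution hr hR hS hfin hD

end Pool.Agent.Results.MP_8c5d11_gt.Disc
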