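import Pool.Agent.W_8c5d11_h22.F5

/-!
# MP_8c5d11_gt : maximal distance minimizers of a disc, local connectedness at scale r
-/

namespace Pool.Agent.Results.MP_8c5d11_gt.DiscConnected

open MeasureTheory Metric Set Pool.Agent.W_8c5d11_h22

/-- **Theorem.** There is an absolute constant `C` such that for all `0 < r ≤ R` and every admissible
set `S` of finite length (in particular for every minimizer) the set `S ∩ closedBall x r` is connected and
nonempty for all points `x` of the closed disc of radius `R` outside a set of area at most
`2 r (H¹(S) - ℓ) + C r²`, where `ℓ` is the least length of an admissible set. -/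
theorem result : ∃ C : ℝ, 0 < C ∧ ∀ R r : ℝ, 0 < r → r ≤ R →
    ∀ S : Set (EuclideanSpace ℝ (Fin 2)), Admissible R r S → μH[1] S ≠ ⊤ →
      volume {x : EuclideanSpace ℝ (Fin 2) | x ∈ closedBall 0 R ∧
          ¬ IsConnected (S ∩ closedBall x r)} ≤
        ENNReal.ofReal (2 * r * ((μH[1] S).toReal - (minLength R r).toReal) + C * r ^ 2) := by
  refine ⟨2000004, by norm_num, fun R r hr hR S hS hfin => ?_⟩
  exact local_connected hr hR hS hfin

end Pool.Agent.Results.MP_8c5d11_gt.DiscConnected
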