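import Pool.Agent.W_8c5d11_w65.Quant
import Pool.Agent.W_8c5d11_w65.Spur

/-!
MP_8c5d11_gt, Minimizers: for `R ≤ 2r` the maximal distance minimizers of the disc are exactly the
horseshoes; for all `r < R` the same for its boundary circle; for `2r < R` every admissible set of the
disc is longer than the horseshoe, with an explicit gap.
-/

set_option autoImplicit false

open MeasureTheory Metric Set

namespace Pool.Agent.Results.MP_8c5d11_gt.Minimizers

open Pool.Agent.W_8c5d11_h73 (horseshoe hlen)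
open Pool.Agent.W_8c5d11_w65 (Covers Minimizer rotate gap)

/-- `Covers M r S`: `S` is compact, connected, and `M` lies in its closed `r`-neighbourhood.
`Minimizer M r S`: `S` has least length among these sets. -/
theorem result (R r : ℝ) (hr : 0 < r) (hR : r < R) :
    (R ≤ 2 * r → ∀ S : Set ℂ,
      Minimizer (closedBall 0 R) r S ↔ ∃ τ : ℝ, S = rotate τ '' horseshoe R r) ∧
    (∀ S : Set ℂ, Minimizer (sphere 0 R) r S ↔ ∃ τ : ℝ, S = rotate τ '' horseshoe R r) ∧
    (∀ τ : ℝ, μH[1] (rotate τ '' horseshoe R r) = ENNReal.ofReal (hlen R r)) ∧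
    (2 * r < R → 0 < gap R r ∧
      (∀ S : Set ℂ, Covers (closedBall 0 R) r S →
        ENNReal.ofReal (hlen R r + gap R r) ≤ μH[1] S) ∧
      (R ≤ 3 * r → ∃ S : Set ℂ, Covers (closedBall 0 R) r S ∧
        μH[1] S ≤ ENNReal.ofReal (hlen R r + (R - 2 * r) * (2 * R - r) / (R - r)))) :=
  ⟨fun h S => Pool.Agent.W_8c5d11_w65.disc_min hr hR h S,
    fun S => Pool.Agent.W_8c5d11_w65.circle_min hr hR S,
    fun τ => Pool.Agent.W_8c5d11_w65.length_rot hr hR τ,
    fun h => ⟨Pool.Agent.W_8c5d11_w65.gap_pos hr h, fun _ hS =>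
      Pool.Agent.W_8c5d11_w65.disc_gap hr h hS, fun h3 =>
        let ⟨S, h4, h5, h6, h7, _⟩ := Pool.Agent.W_8c5d11_w65.spur_main hr h.le h3
        ⟨S, ⟨h4, h5, h6⟩, h7⟩⟩⟩

end Pool.Agent.Results.MP_8c5d11_gt.Minimizers
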